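import Pool.Agent.H369.SM.Stm

/-!
# Project CK (helper369), part SM, task BASIS
-/

set_option autoImplicit false

namespace Pool.Agent.H784.SM

open Pool.Agent.H369.SM TensorProduct

theorem div (h1 : S_mem) : S_div := by
  intro F 𝕂 P _ _ _ C m N n f hf hb h0
  obtain ⟨r1, r2⟩ := (h1 F 𝕂 P C m N f).1 hf
  have hX : f = PowerSeries.X * PowerSeries.mk fun k => PowerSeries.coeff (k + 1) f := by
    refine PowerSeries.ext fun k => ?_
    rcases k with _ | k
    · rw [PowerSeries.coeff_zero_X_mul, h0]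
    · rw [PowerSeries.coeff_succ_X_mul, PowerSeries.coeff_mk]
  refine ⟨PowerSeries.mk fun k => PowerSeries.coeff (k + 1) f,
    (h1 F 𝕂 P C m N _).2 ⟨?_, fun i => ⟨?_, ?_, ?_⟩⟩, ?_, hX⟩
  · intro x e1 e2 e3 k l hl
    rw [PowerSeries.coeff_mk]
    exact r1 x e1 e2 e3 (k + 1) l hl
  · intro k l hl
    rw [PowerSeries.coeff_mk]
    by_cases hlk : l < -((k + 1 : ℕ) : ℤ)
    · exact (r2 i).1 (k + 1) l hlk
    · have hl' : l = ((0 : ℕ) : ℤ) - ((k + 1 : ℕ) : ℤ) := by push_cast at hlk ⊢; omega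
      rw [hl', (r2 i).2.2 0 (k + 1), h0, map_zero, HahnSeries.coeff_zero]
  · intro k l hl
    rw [PowerSeries.coeff_mk]
    by_cases hlk : l < -((k + 1 : ℕ) : ℤ)
    · exact (r2 i).2.1 (k + 1) l hlk
    · have hl' : l = ((0 : ℕ) : ℤ) - ((k + 1 : ℕ) : ℤ) := by push_cast at hlk ⊢; omega
      rw [hl', ← (r2 i).2.2 (k + 1) 0, h0, map_zero, HahnSeries.coeff_zero]
  · intro a b
    rw [PowerSeries.coeff_mk, PowerSeries.coeff_mk]
    have h2 := (r2 i).2.2 (a + 1) (b + 1)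
    have e1 : ((a + 1 : ℕ) : ℤ) - ((b + 1 : ℕ) : ℤ) = (a : ℤ) - b := by push_cast; ring
    have e2 : ((b + 1 : ℕ) : ℤ) - ((a + 1 : ℕ) : ℤ) = (b : ℤ) - a := by push_cast; ring
    rwa [e1, e2] at h2
  · intro k l hl
    rw [PowerSeries.coeff_mk]
    exact hb (k + 1) l hl

section
variable {F 𝕂 P : Type} [Field F] [Field 𝕂] [Algebra F 𝕂]

theorem Bd_zero (C : Crv F 𝕂 P) {m : ℕ} (N : Nodes P m) (n : ℕ) : Bd C N n 0 := fun k l _ => by
  rw [map_zero, map_zero, HahnSeries.coeff_zero]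

theorem coeff0_mul {R : Type} [CommRing R] (f k : PowerSeries R) :
    PowerSeries.coeff 0 (f * k) = PowerSeries.coeff 0 f * PowerSeries.coeff 0 k := by
  rw [PowerSeries.coeff_zero_eq_constantCoeff_apply, PowerSeries.coeff_zero_eq_constantCoeff_apply,
    PowerSeries.coeff_zero_eq_constantCoeff_apply, map_mul]

theorem coeff0_oh (c : F) :
    PowerSeries.coeff 0 (oh F 𝕂 (PowerSeries.C c)) = algebraMap F 𝕂 c := by
  unfold oh
  rw [PowerSeries.coeff_map, PowerSeries.coeff_zero_C]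

theorem oh_X : oh F 𝕂 PowerSeries.X = PowerSeries.X := by
  unfold oh
  rw [PowerSeries.map_X]

/-- the constant coefficients of the functions with pole at most `n` -/
noncomputable def V (h5 : S_oh) (C : Crv F 𝕂 P) {m : ℕ} (N : Nodes P m) (n : ℕ) :
    Submodule F 𝕂 where
  carrier := {P | ∃ f ∈ MM C N, Bd C N n f ∧ PowerSeries.coeff 0 f = P}
  add_mem' := by
    rintro P P' ⟨f, hf, hb, rfl⟩ ⟨f', hf', hb', rfl⟩
    exact ⟨f + f', add_mem hf hf', hb.add hb', map_add _ _ _⟩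
  zero_mem' := ⟨0, zero_mem _, Bd_zero C N n, map_zero _⟩
  smul_mem' := by
    rintro c P ⟨f, hf, hb, rfl⟩
    obtain ⟨o1, o2, -⟩ := h5 F 𝕂 _ C m N (PowerSeries.C c)
    refine ⟨oh F 𝕂 (PowerSeries.C c) * f, mul_mem o1 hf, ?_, ?_⟩
    · have := o2.mul hb
      rwa [zero_add] at this
    · rw [coeff0_mul, coeff0_oh, Algebra.smul_def]

theorem mem_V {h5 : S_oh} {C : Crv F 𝕂 P} {m : ℕ} {N : Nodes P m} {n : ℕ} {z : 𝕂} :
    z ∈ V h5 C N n ↔ ∃ f ∈ MM C N, Bd C N n f ∧ PowerSeries.coeff 0 f = z := Iff.rfl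

theorem nO_o {m : ℕ} (N : Nodes P m) (n : ℕ) : nO N n N.o = n := by
  unfold nO
  rw [Finsupp.single_eq_same]

theorem nO_ne {m : ℕ} (N : Nodes P m) (n : ℕ) {x : P} (hx : x ≠ N.o) : nO N n x = 0 := by
  classical
  unfold nO
  rw [Finsupp.single_apply, if_neg (Ne.symm hx)]

theorem nO_sum {m : ℕ} (N : Nodes P m) (n : ℕ) : ((nO N n).sum fun _ k => k) = (n : ℤ) := by
  unfold nO
  rw [Finsupp.sum_single_index rfl]

theorem V_le (h1 : S_mem) (h5 : S_oh) (C : Crv F 𝕂 P) {m : ℕ} (N : Nodes P m) (n : ℕ) :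
    V h5 C N n ≤ C.L (nO N n) := by
  rintro z ⟨f, hf, hb, rfl⟩
  obtain ⟨r1, r2⟩ := (h1 F 𝕂 _ C m N f).1 hf
  rw [Crv.mem_L]
  intro x k hk
  by_cases hx : x = N.o
  · subst hx
    rw [nO_o] at hk
    exact hb 0 k hk
  · rw [nO_ne N n hx] at hk
    by_cases hp : ∃ i, x = N.p i
    · obtain ⟨i, rfl⟩ := hp
      exact (r2 i).1 0 k (by simpa using hk)
    · by_cases hq : ∃ i, x = N.q i
      · obtain ⟨i, rfl⟩ := hq
        exact (r2 i).2.1 0 k (by simpa using hk)
      · exact r1 x hx (fun i hi => hp ⟨i, hi⟩) (fun i hi => hq ⟨i, hi⟩) 0 k (by simpa using hk)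

theorem finrank_L {C : Crv F 𝕂 P} {h : ℕ} (hC : C.RR h) {m : ℕ} (N : Nodes P m) {n : ℕ}
    (hn : 2 * h ≤ n + 1) : (Module.finrank F (C.L (nO N n)) : ℤ) = n + 1 - h := by
  have h2 := hC (nO N n) (by rw [nO_sum]; omega)
  rwa [nO_sum] at h2

theorem finL {C : Crv F 𝕂 P} {h : ℕ} (hC : C.RR h) {m : ℕ} (N : Nodes P m) (n : ℕ) :
    Module.Finite F (C.L (nO N n)) := by
  have h2 := finrank_L hC N (n := n + 2 * h) (by omega)
  have h3 : Module.Finite F (C.L (nO N (n + 2 * h))) := by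
    refine Module.finite_of_finrank_pos ?_
    push_cast at h2
    omega
  have h4 : C.L (nO N n) ≤ C.L (nO N (n + 2 * h)) := by
    intro f hf x k hk
    rw [Crv.mem_L] at hf
    refine hf x k ?_
    by_cases hx : x = N.o
    · subst hx
      rw [nO_o] at hk ⊢
      push_cast at hk
      omega
    · rw [nO_ne N _ hx] at hk ⊢
      exact hk
  exact Submodule.finiteDimensional_of_le h4

/-- the differences of the values -/
noncomputable def Lm (C : Crv F 𝕂 P) {m : ℕ} (N : Nodes P m) (n : ℕ) :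
    C.L (nO N n) →ₗ[F] (Fin m → F) where
  toFun := fun f i => (C.E (N.p i) (f : 𝕂)).coeff 0 - (C.E (N.q i) (f : 𝕂)).coeff 0
  map_add' := fun f f' => by
    funext i
    simp only [Submodule.coe_add, map_add, HahnSeries.coeff_add, Pi.add_apply]
    ring
  map_smul' := fun c f => by
    funext i
    simp only [Submodule.coe_smul, C.E_smul, HahnSeries.coeff_smul, Pi.smul_apply,
      RingHom.id_apply, smul_eq_mul]
    ring

theorem Lm_apply (C : Crv F 𝕂 P) {m : ℕ} (N : Nodes P m) (n : ℕ) (f : C.L (nO N n)) (i : Fin m) :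
    Lm C N n f i = (C.E (N.p i) (f : 𝕂)).coeff 0 - (C.E (N.q i) (f : 𝕂)).coeff 0 := rfl

theorem Lm_surj (h2 : S_sur) {C : Crv F 𝕂 P} {h : ℕ} (hC : C.RR h) {m : ℕ} (N : Nodes P m) {n : ℕ}
    (hn : 2 * (h + m) ≤ n + 1) : Function.Surjective (Lm C N n) := by
  intro y
  have hinj : Function.Injective (fun j : Fin (m + m) => Sum.elim N.p N.q (finSumFinEquiv.symm j)) :=
    N.inj.comp finSumFinEquiv.symm.injective
  obtain ⟨f, hf, hc⟩ := h2 F 𝕂 P C h hC (m + m) 0
    (fun j : Fin (m + m) => Sum.elim N.p N.q (finSumFinEquiv.symm j)) hinj (nO N n)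
    (by rw [nO_sum]; push_cast; omega)
    (fun j _ => Sum.elim y (fun _ => 0) (finSumFinEquiv.symm j))
  refine ⟨⟨f, hf⟩, ?_⟩
  funext i
  rw [Lm_apply]
  have e1 := hc (finSumFinEquiv (Sum.inl i)) 0
  have e2 := hc (finSumFinEquiv (Sum.inr i)) 0
  rw [Equiv.symm_apply_apply, Sum.elim_inl, Sum.elim_inl, nO_ne N n (N.po i)] at e1
  rw [Equiv.symm_apply_apply, Sum.elim_inr, Sum.elim_inr, nO_ne N n (N.qo i)] at e2
  have e1' : (C.E (N.p i) f).coeff 0 = y i := by simpa using e1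
  have e2' : (C.E (N.q i) f).coeff 0 = 0 := by simpa using e2
  show (C.E (N.p i) f).coeff 0 - (C.E (N.q i) f).coeff 0 = y i
  rw [e1', e2', sub_zero]

theorem V_eq (h1 : S_mem) (h3 : S_lift) (h5 : S_oh) {C : Crv F 𝕂 P} {h : ℕ} (hC : C.RR h) {m : ℕ}
    (N : Nodes P m) {n : ℕ} (hn : 2 * (h + m) ≤ n + 1) :
    V h5 C N n = (LinearMap.ker (Lm C N n)).map (C.L (nO N n)).subtype := by
  ext z
  rw [Submodule.mem_map]
  constructor
  · intro hz
    refine ⟨⟨z, V_le h1 h5 C N n hz⟩, ?_, rfl⟩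
    rw [LinearMap.mem_ker]
    funext i
    rw [Lm_apply]
    obtain ⟨f, hf, hb, rfl⟩ := hz
    obtain ⟨-, r2⟩ := (h1 F 𝕂 _ C m N f).1 hf
    have h4 := (r2 i).2.2 0 0
    rw [sub_self] at h4
    show (C.E (N.p i) (PowerSeries.coeff 0 f)).coeff 0 -
      (C.E (N.q i) (PowerSeries.coeff 0 f)).coeff 0 = 0
    rw [h4, sub_self]
  · rintro ⟨z', hz', rfl⟩
    rw [LinearMap.mem_ker] at hz'
    obtain ⟨f, hf, hb, h0⟩ := h3 F 𝕂 P C h hC m N n hn z' z'.2 (fun i => by
      have h4 := congrFun hz' i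
      rw [Lm_apply] at h4
      exact sub_eq_zero.1 h4)
    exact ⟨f, hf, hb, h0⟩

theorem finrank_V (h1 : S_mem) (h2 : S_sur) (h3 : S_lift) (h5 : S_oh) {C : Crv F 𝕂 P} {h : ℕ}
    (hC : C.RR h) {m : ℕ} (N : Nodes P m) {n : ℕ} (hn : 2 * (h + m) ≤ n + 1) :
    Module.finrank F (V h5 C N n) = n + 1 - (h + m) := by
  have hfin := finL hC N n
  rw [V_eq h1 h3 h5 hC N hn, Submodule.finrank_map_subtype_eq]
  have h4 := LinearMap.finrank_range_add_finrank_ker (Lm C N n)
  rw [LinearMap.range_eq_top.2 (Lm_surj h2 hC N hn), finrank_top, Module.finrank_fin_fun] at h4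
  have h5 := finrank_L hC N (n := n) (by omega)
  omega

end

theorem basis (h1 : S_mem) (h2 : S_sur) (h3 : S_lift) (h4 : S_div) (h5 : S_oh) : S_basis := by
  classical
  intro F 𝕂 P _ _ _ C h hC m N n
  have hfin := finL hC N n
  have : Module.Finite F (V h5 C N n) := Submodule.finiteDimensional_of_le (V_le h1 h5 C N n)
  obtain ⟨r, hr⟩ : ∃ r, Module.finrank F (V h5 C N n) = r := ⟨_, rfl⟩
  let B : Module.Basis (Fin r) F (V h5 C N n) := Module.finBasisOfFinrankEq F (V h5 C N n) hr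
  choose e he hb hc using fun x : Fin r => mem_V.1 (B x).2
  have hc' : (fun x => PowerSeries.coeff 0 (e x)) = fun x => ((B x : V h5 C N n) : 𝕂) := funext hc
  refine ⟨r, e, fun x => ⟨he x, hb x⟩, ?_, ?_, fun hn => ?_⟩
  · rw [hc']
    exact B.linearIndependent.map' (V h5 C N n).subtype (Submodule.ker_subtype _)
  · -- one step of the division
    have hstep : ∀ f : {f : PowerSeries 𝕂 // f ∈ MM C N ∧ Bd C N n f},
        ∃ (c : Fin r → F) (f' : {f : PowerSeries 𝕂 // f ∈ MM C N ∧ Bd C N n f}),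
          (f : PowerSeries 𝕂) = ∑ x, oh F 𝕂 (PowerSeries.C (c x)) * e x +
            PowerSeries.X * (f' : PowerSeries 𝕂) := by
      rintro ⟨f, hf, hfb⟩
      have hfV : PowerSeries.coeff 0 f ∈ V h5 C N n := ⟨f, hf, hfb, rfl⟩
      obtain ⟨c, hcc⟩ : ∃ c : Fin r → F, c = fun x => B.repr ⟨_, hfV⟩ x := ⟨_, rfl⟩
      have h6 : PowerSeries.coeff 0 f = ∑ x, algebraMap F 𝕂 (c x) * PowerSeries.coeff 0 (e x) := by
        have h7 := B.sum_repr ⟨_, hfV⟩
        have h8 := congrArg (fun v : V h5 C N n => (v : 𝕂)) h7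
        simp only [Submodule.coe_sum, Submodule.coe_smul] at h8
        rw [← h8]
        refine Finset.sum_congr rfl fun x _ => ?_
        rw [hc x, Algebra.smul_def, hcc]
      have hmem : f - ∑ x, oh F 𝕂 (PowerSeries.C (c x)) * e x ∈ MM C N :=
        sub_mem hf (sum_mem fun x _ => mul_mem (h5 F 𝕂 P C m N _).1 (he x))
      have hsum : Bd C N n (∑ x, oh F 𝕂 (PowerSeries.C (c x)) * e x) := by
        have : ∀ s : Finset (Fin r), Bd C N n
            (∑ x ∈ s, oh F 𝕂 (PowerSeries.C (c x)) * e x) := by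
          intro s
          induction s using Finset.induction_on with
          | empty => rw [Finset.sum_empty]; exact Bd_zero C N n
          | insert x s hx ih =>
            rw [Finset.sum_insert hx]
            have h4 := (h5 F 𝕂 P C m N (PowerSeries.C (c x))).2.1.mul (hb x)
            rw [zero_add] at h4
            exact h4.add ih
        exact this _
      have hbd : Bd C N n (f - ∑ x, oh F 𝕂 (PowerSeries.C (c x)) * e x) := by
        rw [sub_eq_add_neg]
        exact hfb.add hsum.neg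
      have h0 : PowerSeries.coeff 0 (f - ∑ x, oh F 𝕂 (PowerSeries.C (c x)) * e x) = 0 := by
        rw [map_sub, map_sum, h6, sub_eq_zero]
        refine Finset.sum_congr rfl fun x _ => ?_
        rw [coeff0_mul, coeff0_oh]
      obtain ⟨f', hf', hb', hff⟩ := h4 F 𝕂 P C m N n _ hmem hbd h0
      refine ⟨c, ⟨f', hf', hb'⟩, ?_⟩
      show f = _ + PowerSeries.X * f'
      rw [← hff]
      ring
    choose c nxt hs using hstep
    intro f hf hfb
    obtain ⟨o, ho⟩ : ∃ o : {f : PowerSeries 𝕂 // f ∈ MM C N ∧ Bd C N n f} → Fin r →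
        PowerSeries F, ∀ f x, o f x = PowerSeries.mk fun k => c (nxt^[k] f) x :=
      ⟨_, fun _ _ => rfl⟩
    have ho1 : ∀ f x, o f x = PowerSeries.C (c f x) + PowerSeries.X * o (nxt f) x := by
      intro f x
      rw [ho, ho]
      ext k
      rcases k with _ | k
      · simp
      · rw [PowerSeries.coeff_mk, map_add, PowerSeries.coeff_succ_X_mul, PowerSeries.coeff_mk,
          PowerSeries.coeff_C, if_neg (Nat.succ_ne_zero k), zero_add, Function.iterate_succ_apply]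
    have hD : ∀ f : {f : PowerSeries 𝕂 // f ∈ MM C N ∧ Bd C N n f},
        (f : PowerSeries 𝕂) - ∑ x, oh F 𝕂 (o f x) * e x =
          PowerSeries.X * ((nxt f : PowerSeries 𝕂) - ∑ x, oh F 𝕂 (o (nxt f) x) * e x) := by
      intro f
      have h5 : ∑ x, oh F 𝕂 (o f x) * e x =
          ∑ x, oh F 𝕂 (PowerSeries.C (c f x)) * e x +
            PowerSeries.X * ∑ x, oh F 𝕂 (o (nxt f) x) * e x := by
        rw [Finset.mul_sum, ← Finset.sum_add_distrib]
        refine Finset.sum_congr rfl fun x _ => ?_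
        rw [ho1 f x, map_add, map_mul, oh_X]
        ring
      rw [h5]
      nth_rewrite 1 [hs f]
      ring
    have hdvd : ∀ (k : ℕ) (f : {f : PowerSeries 𝕂 // f ∈ MM C N ∧ Bd C N n f}),
        (PowerSeries.X : PowerSeries 𝕂) ^ k ∣
          (f : PowerSeries 𝕂) - ∑ x, oh F 𝕂 (o f x) * e x := by
      intro k
      induction k with
      | zero => intro f; rw [pow_zero]; exact one_dvd _
      | succ k ih =>
        intro f
        rw [hD f, pow_succ']
        exact mul_dvd_mul dvd_rfl (ih (nxt f))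
    refine ⟨o ⟨f, hf, hfb⟩, ?_⟩
    symm
    rw [← sub_eq_zero]
    ext1 k
    rw [map_zero]
    exact (PowerSeries.X_pow_dvd_iff.1 (hdvd (k + 1) ⟨f, hf, hfb⟩)) k (Nat.lt_succ_self k)
  · rw [← hr]
    exact finrank_V h1 h2 h3 h5 hC N hn

end Pool.Agent.H784.SM
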